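import Mathlib

/-!
# Parseval for a function in the closed span of an orthonormal family
-/

set_option autoImplicit false

open MeasureTheory Finset Filter
open scoped Topology

namespace Pool.Agent.W64.GP

theorem parseval_abs {E : Type*} [NormedAddCommGroup E] [InnerProductSpace ℝ E] [CompleteSpace E]
    {ι : Type*} {v : ι → E} (hv : Orthonormal ℝ v) {x : E} (y : E)
    (h : ∀ w : E, (∀ i, inner ℝ w (v i) = 0) → inner ℝ w x = 0) :
    HasSum (fun i => inner ℝ (v i) x * inner ℝ (v i) y) (inner ℝ x y) := by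
  obtain ⟨w, b, hs, hb⟩ := hv.toSubtypeRange.exists_hilbertBasis_extension
  have H := b.hasSum_inner_mul_inner x y
  let g : ι → w := fun i => ⟨v i, hs ⟨i, rfl⟩⟩
  have hgi : Function.Injective g := fun i j hij =>
    hv.linearIndependent.injective (congrArg Subtype.val hij)
  have hbg : ∀ i, b (g i) = v i := fun i => by rw [hb]
  have h0 : ∀ j ∉ Set.range g, inner ℝ x (b j) * inner ℝ (b j) y = 0 := by
    intro j hj
    have h1 : inner ℝ (b j) x = 0 := by
      apply h
      intro i
      rw [← hbg i]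
      apply b.orthonormal.2
      rintro rfl
      exact hj ⟨i, rfl⟩
    rw [real_inner_comm, h1, zero_mul]
  have H2 := (hgi.hasSum_iff h0).2 H
  refine H2.congr_fun ?_
  intro i
  simp only [Function.comp, hbg]
  rw [real_inner_comm]

theorem inner_toLp2 {α : Type*} [MeasurableSpace α] {μ : Measure α} {f g : α → ℝ}
    (hf : MemLp f 2 μ) (hg : MemLp g 2 μ) :
    inner ℝ (hf.toLp f) (hg.toLp g) = ∫ y, f y * g y ∂μ := by
  rw [L2.inner_def]
  apply integral_congr_ae
  filter_upwards [hf.coeFn_toLp, hg.coeFn_toLp] with y h1 h2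
  rw [h1, h2, RCLike.inner_apply, conj_trivial, mul_comm]

theorem parseval_fun {α : Type*} [MeasurableSpace α] {μ : Measure α} {ι : Type*} [DecidableEq ι]
    {e : ι → α → ℝ} (he : ∀ i, MemLp (e i) 2 μ)
    (hon : ∀ i j, ∫ y, e i y * e j y ∂μ = if i = j then 1 else 0) {f g : α → ℝ}
    (hf : MemLp f 2 μ) (hg : MemLp g 2 μ)
    (h : ∀ w : α → ℝ, MemLp w 2 μ → (∀ i, ∫ y, w y * e i y ∂μ = 0) → ∫ y, w y * f y ∂μ = 0) :
    HasSum (fun i => (∫ y, e i y * f y ∂μ) * (∫ y, e i y * g y ∂μ)) (∫ y, f y * g y ∂μ) := by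
  have hv : Orthonormal ℝ (fun i => (he i).toLp (e i)) := by
    rw [orthonormal_iff_ite]
    intro i j
    rw [inner_toLp2 (he i) (he j), hon]
  have H := parseval_abs hv (x := hf.toLp f) (hg.toLp g) (fun w hw => by
    have hwm : MemLp (w : α → ℝ) 2 μ := Lp.memLp w
    have e1 : hwm.toLp w = w := Lp.toLp_coeFn w hwm
    have e2 : ∀ i, ∫ y, w y * e i y ∂μ = 0 := fun i => by
      rw [← inner_toLp2 hwm (he i), e1]
      exact hw i
    rw [← e1, inner_toLp2 hwm hf]
    exact h w hwm e2)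
  rw [inner_toLp2 hf hg] at H
  refine H.congr_fun fun i => ?_
  rw [inner_toLp2 (he i) hf, inner_toLp2 (he i) hg]

end Pool.Agent.W64.GP
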