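import Pool.Agent.W64.GP.PairId
import Pool.Agent.W64.GP.Parseval

/-!
# GP-SL3: Parseval for the slices
-/

set_option autoImplicit false

open MeasureTheory Finset Filter
open scoped Topology

namespace Pool.Agent.W64.GP

open Pool.Agent.W259.GP

theorem gauss_int (n : ℕ) : Integrable (fun y : Fin n → ℝ => Real.exp (-(∑ i, y i ^ 2) / 2)) := by
  have h := Integrable.fintype_prod (μ := fun _ : Fin n => (volume : Measure ℝ))
    (f := fun (_ : Fin n) (t : ℝ) => Real.exp (-(1 / 2) * t ^ 2))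
    (fun _ => integrable_exp_neg_mul_sq (by norm_num))
  refine h.congr (Eventually.of_forall fun y => ?_)
  simp only
  rw [← Real.exp_sum]
  congr 1
  rw [← Finset.mul_sum]
  ring

theorem memLp_of_bound {n : ℕ} {f : (Fin n → ℝ) → ℝ} (hf : Continuous f) {C : ℝ}
    (h : ∀ y, |f y| ≤ C * Real.exp (-(∑ i, y i ^ 2) / 4)) : MemLp f 2 volume := by
  rw [memLp_two_iff_integrable_sq hf.aestronglyMeasurable]
  refine ((gauss_int n).const_mul (C ^ 2)).mono' (hf.pow 2).aestronglyMeasurable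
    (Eventually.of_forall fun y => ?_)
  rw [Real.norm_eq_abs, abs_pow]
  calc |f y| ^ 2 ≤ (C * Real.exp (-(∑ i, y i ^ 2) / 4)) ^ 2 := by
        gcongr
        exact h y
    _ = C ^ 2 * Real.exp (-(∑ i, y i ^ 2) / 2) := by
        rw [mul_pow, ← Real.exp_nat_mul]
        congr 2
        push_cast
        ring

theorem cons_bound {n : ℕ} {f : (Fin (n + 1) → ℝ) → ℝ} {C : ℝ}
    (h : ∀ z, |f z| ≤ C * Real.exp (-(∑ i, z i ^ 2) / 4)) (x : ℝ) (y : Fin n → ℝ) :
    |f (Fin.cons x y)| ≤ (C * Real.exp (-x ^ 2 / 4)) * Real.exp (-(∑ i, y i ^ 2) / 4) := by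
  refine (h _).trans (le_of_eq ?_)
  rw [Fin.sum_univ_succ]
  simp only [Fin.cons_zero, Fin.cons_succ]
  rw [mul_assoc, ← Real.exp_add]
  congr 2
  ring

section

variable {n : ℕ} {O : Fin (n + 1) → Fin (n + 1) → ℝ} {c : Fin (n + 1) → ℝ}
    {χ : (Fin (n + 1) → ℕ) → (Fin (n + 1) → ℝ) → ℝ} {O' : Fin n → Fin n → ℝ} {c' : Fin n → ℝ}
    {χ' : (Fin n → ℕ) → (Fin n → ℝ) → ℝ}

theorem slice_memLp (P : Pair O c χ O' c' χ') (κ : Fin (n + 1) → ℕ) (x : ℝ) :
    MemLp (fun y : Fin n → ℝ => χ κ (Fin.cons x y)) 2 volume := by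
  obtain ⟨C, hC⟩ := P.h.bound κ
  exact memLp_of_bound ((P.h.cont κ).comp (cons_cont x)) (fun y => cons_bound hC x y)

theorem chi'_memLp (P : Pair O c χ O' c' χ') (κ : Fin n → ℕ) : MemLp (χ' κ) 2 volume := by
  obtain ⟨C, hC⟩ := P.h'.bound κ
  exact memLp_of_bound (P.h'.cont κ) hC

/-- pointwise Parseval for the slices -/
theorem slice_parseval (P : Pair O c χ O' c' χ') (κ κ₁ : Fin (n + 1) → ℕ) (x : ℝ) :
    HasSum (fun κ' => bb χ' χ κ' κ x * bb χ' χ κ' κ₁ x)
      (∫ y : Fin n → ℝ, χ κ (Fin.cons x y) * χ κ₁ (Fin.cons x y)) := by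
  refine parseval_fun (fun κ' => chi'_memLp P κ') P.h'.orth (slice_memLp P κ x)
    (slice_memLp P κ₁ x) ?_
  intro w hw h0
  have hG : MemLp (fun y : Fin n → ℝ => Real.exp (-(∑ i, y i ^ 2) / 2)) 2 volume := by
    refine memLp_of_bound (by fun_prop) (C := 1) fun y => ?_
    rw [one_mul, abs_of_nonneg (Real.exp_pos _).le]
    apply Real.exp_le_exp.2
    have : 0 ≤ ∑ i, y i ^ 2 := Finset.sum_nonneg fun i _ => sq_nonneg _
    linarith
  have hI : Integrable (fun y : Fin n → ℝ => |w y| * Real.exp (-(∑ i, y i ^ 2) / 2)) :=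
    hw.abs.integrable_mul hG
  obtain ⟨I, h1, h2⟩ := pair_id P x hw.aestronglyMeasurable hI
  have hI0 : I = 0 := by
    refine h2.unique ?_
    have : (fun κ' => Lam c' κ' * (∫ y, w y * χ' κ' y) ^ 2) = fun _ => 0 := by
      funext κ'
      rw [h0 κ']
      ring
    rw [this]
    exact hasSum_zero
  rw [hI0, mul_zero] at h1
  have h3 := (hasSum_zero_iff_of_nonneg (fun κ => mul_nonneg (Lam_pos P.pos κ).le
    (sq_nonneg _))).1 h1
  have h4 := congrFun h3 κ
  simp only [Pi.zero_apply, mul_eq_zero] at h4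
  rcases h4 with h4 | h4
  · exact absurd h4 (Lam_pos P.pos κ).ne'
  · exact pow_eq_zero_iff (two_ne_zero) |>.1 h4

/-- decay of the norms of the slices -/
theorem norm_slice (P : Pair O c χ O' c' χ') (κ : Fin (n + 1) → ℕ) : ∃ K : ℝ, 0 ≤ K ∧ ∀ x : ℝ,
    √(∫ y : Fin n → ℝ, χ κ (Fin.cons x y) * χ κ (Fin.cons x y))
      ≤ K * Real.exp (-x ^ 2 / 4) := by
  obtain ⟨C, hC⟩ := P.h.bound κ
  have hC0 : 0 ≤ C := by
    have h := (abs_nonneg _).trans (hC 0)
    by_contra hn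
    push Not at hn
    have := Real.exp_pos (-(∑ i : Fin (n + 1), (0 : Fin (n + 1) → ℝ) i ^ 2) / 4)
    nlinarith
  set G : ℝ := ∫ y : Fin n → ℝ, Real.exp (-(∑ i, y i ^ 2) / 2) with hG
  have hG0 : 0 ≤ G := integral_nonneg fun y => (Real.exp_pos _).le
  refine ⟨C * √G, by positivity, fun x => ?_⟩
  apply Real.sqrt_le_iff.2
  refine ⟨by positivity, ?_⟩
  have h1 : (∫ y : Fin n → ℝ, χ κ (Fin.cons x y) * χ κ (Fin.cons x y))
      ≤ ∫ y : Fin n → ℝ, (C ^ 2 * Real.exp (-x ^ 2 / 2)) * Real.exp (-(∑ i, y i ^ 2) / 2) := by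
    apply integral_mono
    · exact (slice_memLp P κ x).integrable_mul (slice_memLp P κ x)
    · exact (gauss_int n).const_mul _
    · intro y
      simp only
      calc χ κ (Fin.cons x y) * χ κ (Fin.cons x y)
          = |χ κ (Fin.cons x y)| * |χ κ (Fin.cons x y)| := (abs_mul_abs_self _).symm
        _ ≤ ((C * Real.exp (-x ^ 2 / 4)) * Real.exp (-(∑ i, y i ^ 2) / 4)) *
            ((C * Real.exp (-x ^ 2 / 4)) * Real.exp (-(∑ i, y i ^ 2) / 4)) := by
            have := cons_bound hC x y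
            gcongr
        _ = C ^ 2 * (Real.exp (-x ^ 2 / 4) * Real.exp (-x ^ 2 / 4)) *
            (Real.exp (-(∑ i, y i ^ 2) / 4) * Real.exp (-(∑ i, y i ^ 2) / 4)) := by ring
        _ = _ := by
            rw [← Real.exp_add, ← Real.exp_add]
            congr 3 <;> ring
  refine h1.trans (le_of_eq ?_)
  rw [integral_const_mul, ← hG, mul_pow, mul_pow, Real.sq_sqrt hG0, ← Real.exp_nat_mul]
  have : ((2 : ℕ) : ℝ) * (-x ^ 2 / 4) = -x ^ 2 / 2 := by push_cast; ring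
  rw [this]
  ring

theorem cons_cont2 {n : ℕ} :
    Continuous (fun p : ℝ × (Fin n → ℝ) => (Fin.cons p.1 p.2 : Fin (n + 1) → ℝ)) := by
  refine continuous_pi fun i => ?_
  refine Fin.cases ?_ (fun j => ?_) i
  · simpa using continuous_fst
  · simp only [Fin.cons_succ]
    exact (continuous_apply j).comp continuous_snd

theorem poly_gauss_int (e : ℕ) : Integrable (fun x : ℝ => |x| ^ e * Real.exp (-x ^ 2 / 2)) := by
  have h := (integrable_rpow_mul_exp_neg_mul_sq (b := 1 / 2) (by norm_num) (s := (e : ℝ))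
    (by have : (0 : ℝ) ≤ e := Nat.cast_nonneg e
        linarith)).norm
  refine h.congr (Eventually.of_forall fun x => ?_)
  simp only
  rw [Real.rpow_natCast, norm_mul, norm_pow, Real.norm_eq_abs, Real.norm_eq_abs,
    abs_of_nonneg (Real.exp_pos _).le]
  congr 2
  ring

/-- Fubini for the first coordinate -/
theorem fubini_first (P : Pair O c χ O' c' χ') (e : ℕ) (κ κ₁ : Fin (n + 1) → ℕ) :
    (∫ z : Fin (n + 1) → ℝ, z 0 ^ e * (χ κ z * χ κ₁ z))
      = ∫ x : ℝ, x ^ e * ∫ y : Fin n → ℝ, χ κ (Fin.cons x y) * χ κ₁ (Fin.cons x y) := by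
  rw [← ((volume_preserving_piFinSuccAbove (fun _ : Fin (n + 1) => ℝ) 0).symm).integral_comp']
  have e1 : ∀ p : ℝ × (Fin n → ℝ),
      (MeasurableEquiv.piFinSuccAbove (fun _ : Fin (n + 1) => ℝ) 0).symm p
        = Fin.cons p.1 p.2 := by
    intro p
    rw [MeasurableEquiv.piFinSuccAbove_symm_apply]
    simp [Fin.insertNthEquiv]
  have e2 : (∫ p : ℝ × (Fin n → ℝ),
      (MeasurableEquiv.piFinSuccAbove (fun _ : Fin (n + 1) => ℝ) 0).symm p 0 ^ e *
      (χ κ ((MeasurableEquiv.piFinSuccAbove (fun _ : Fin (n + 1) => ℝ) 0).symm p) *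
        χ κ₁ ((MeasurableEquiv.piFinSuccAbove (fun _ : Fin (n + 1) => ℝ) 0).symm p)))
      = ∫ p : ℝ × (Fin n → ℝ), p.1 ^ e * (χ κ (Fin.cons p.1 p.2) * χ κ₁ (Fin.cons p.1 p.2)) := by
    congr 1
    funext p
    rw [e1 p, Fin.cons_zero]
  refine e2.trans ?_
  obtain ⟨C, hC⟩ := P.h.bound κ
  obtain ⟨C₁, hC₁⟩ := P.h.bound κ₁
  have hint : Integrable (fun p : ℝ × (Fin n → ℝ) =>
      p.1 ^ e * (χ κ (Fin.cons p.1 p.2) * χ κ₁ (Fin.cons p.1 p.2)))
      ((volume : Measure ℝ).prod (volume : Measure (Fin n → ℝ))) := by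
    have hdom := ((poly_gauss_int e).mul_prod (gauss_int n)).const_mul (C * C₁)
    refine hdom.mono' ?_ (Eventually.of_forall fun p => ?_)
    · have h1 := (P.h.cont κ).comp (cons_cont2 (n := n))
      have h2 := (P.h.cont κ₁).comp (cons_cont2 (n := n))
      exact ((continuous_fst.pow e).mul (h1.mul h2)).aestronglyMeasurable
    · rw [Real.norm_eq_abs, abs_mul, abs_mul, abs_pow]
      have b1 := cons_bound hC p.1 p.2
      have b2 := cons_bound hC₁ p.1 p.2
      calc |p.1| ^ e * (|χ κ (Fin.cons p.1 p.2)| * |χ κ₁ (Fin.cons p.1 p.2)|)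
          ≤ |p.1| ^ e * (((C * Real.exp (-p.1 ^ 2 / 4)) * Real.exp (-(∑ i, p.2 i ^ 2) / 4)) *
            ((C₁ * Real.exp (-p.1 ^ 2 / 4)) * Real.exp (-(∑ i, p.2 i ^ 2) / 4))) := by
            have h0 := (abs_nonneg _).trans b1
            gcongr
        _ = C * C₁ * (|p.1| ^ e * (Real.exp (-p.1 ^ 2 / 4) * Real.exp (-p.1 ^ 2 / 4)) *
            (Real.exp (-(∑ i, p.2 i ^ 2) / 4) * Real.exp (-(∑ i, p.2 i ^ 2) / 4))) := by ring
        _ = _ := by
            rw [← Real.exp_add, ← Real.exp_add]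
            congr 3
            · congr 1
              ring
            · ring
  rw [Measure.volume_eq_prod, integral_prod _ hint]
  congr 1
  funext x
  rw [← integral_const_mul]

theorem sl3_aux (h1 : S_sl1) (P : Pair O c χ O' c' χ') (e : ℕ) (κ κ₁ : Fin (n + 1) → ℕ) :
    HasSum (fun κ' => ∫ x, x ^ e * (bb χ' χ κ' κ x * bb χ' χ κ' κ₁ x))
      (∫ z : Fin (n + 1) → ℝ, z 0 ^ e * (χ κ z * χ κ₁ z)) := by
  obtain ⟨K, hK0, hK⟩ := norm_slice P κ
  obtain ⟨K₁, hK₁0, hK₁⟩ := norm_slice P κ₁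
  have hb : ∀ (s : Finset (Fin n → ℕ)) (x : ℝ),
      ∑ κ' ∈ s, |bb χ' χ κ' κ x| * |bb χ' χ κ' κ₁ x| ≤ K * K₁ * Real.exp (-x ^ 2 / 2) := by
    intro s x
    have p1 := slice_parseval P κ κ x
    have p2 := slice_parseval P κ₁ κ₁ x
    have h2 := sum_abs_le (lam := fun _ : Fin n → ℕ => (1 : ℝ)) (fun _ => zero_le_one)
      (a := fun κ' => bb χ' χ κ' κ x) (b := fun κ' => bb χ' χ κ' κ₁ x)
      (by simpa using p1) (by simpa using p2) s
    simp only [one_mul] at h2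
    refine h2.trans ?_
    calc _ ≤ (K * Real.exp (-x ^ 2 / 4)) * (K₁ * Real.exp (-x ^ 2 / 4)) := by
          have a1 := hK x
          have a2 := hK₁ x
          gcongr
      _ = K * K₁ * (Real.exp (-x ^ 2 / 4) * Real.exp (-x ^ 2 / 4)) := by ring
      _ = _ := by
          rw [← Real.exp_add]
          congr 2
          ring
  have hdom : Integrable (fun x : ℝ => K * K₁ * (|x| ^ e * Real.exp (-x ^ 2 / 2))) :=
    (poly_gauss_int e).const_mul _
  have hint : ∀ κ', Integrable (fun x : ℝ => x ^ e * (bb χ' χ κ' κ x * bb χ' χ κ' κ₁ x)) := by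
    intro κ'
    refine hdom.mono' ?_ (Eventually.of_forall fun x => ?_)
    · have c1 := (h1 n O c χ O' c' χ' P κ' κ).1
      have c2 := (h1 n O c χ O' c' χ' P κ' κ₁).1
      exact ((continuous_id.pow e).mul (c1.mul c2)).aestronglyMeasurable
    · rw [Real.norm_eq_abs, abs_mul, abs_mul, abs_pow]
      have h2 := hb {κ'} x
      rw [Finset.sum_singleton] at h2
      calc _ ≤ |x| ^ e * (K * K₁ * Real.exp (-x ^ 2 / 2)) := by gcongr
        _ = _ := by ring
  have hsum : Summable fun κ' => ∫ x : ℝ, ‖x ^ e * (bb χ' χ κ' κ x * bb χ' χ κ' κ₁ x)‖ := by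
    refine summable_of_sum_le (c := ∫ x : ℝ, K * K₁ * (|x| ^ e * Real.exp (-x ^ 2 / 2)))
      (fun κ' => integral_nonneg fun x => norm_nonneg _) fun s => ?_
    rw [← integral_finsetSum s fun κ' _ => (hint κ').norm]
    refine integral_mono (integrable_finsetSum s fun κ' _ => (hint κ').norm) hdom fun x => ?_
    have h2 := hb s x
    calc ∑ κ' ∈ s, ‖x ^ e * (bb χ' χ κ' κ x * bb χ' χ κ' κ₁ x)‖
        = |x| ^ e * ∑ κ' ∈ s, |bb χ' χ κ' κ x| * |bb χ' χ κ' κ₁ x| := by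
          rw [Finset.mul_sum]
          apply Finset.sum_congr rfl
          intro κ' _
          rw [Real.norm_eq_abs, abs_mul, abs_mul, abs_pow]
      _ ≤ |x| ^ e * (K * K₁ * Real.exp (-x ^ 2 / 2)) := by gcongr
      _ = _ := by ring
  have main := hasSum_integral_of_summable_integral_norm hint hsum
  rw [fubini_first P e κ κ₁]
  have e1 : ∀ x : ℝ, ∑' κ', x ^ e * (bb χ' χ κ' κ x * bb χ' χ κ' κ₁ x)
      = x ^ e * ∫ y : Fin n → ℝ, χ κ (Fin.cons x y) * χ κ₁ (Fin.cons x y) := by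
    intro x
    rw [tsum_mul_left, (slice_parseval P κ κ₁ x).tsum_eq]
  simp only [e1] at main
  exact main

end

/-- **GP-SL3** -/
theorem sl3_of (h1 : S_sl1) : S_sl3 := by
  intro n O c χ O' c' χ' P e κ κ₁
  exact sl3_aux h1 P e κ κ₁

end Pool.Agent.W64.GP
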