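import Mathlib

/-!
# The kernel identity for sums of rank one kernels
-/

set_option autoImplicit false

open MeasureTheory Finset Filter
open scoped Topology

namespace Pool.Agent.W64.GP

/-- finite Cauchy-Schwarz for a part of two nonnegative series -/
theorem sum_abs_le {ι : Type*} {a b lam : ι → ℝ} (hl : ∀ i, 0 ≤ lam i) {A B : ℝ}
    (ha : HasSum (fun i => lam i * (a i * a i)) A) (hb : HasSum (fun i => lam i * (b i * b i)) B)
    (s : Finset ι) : ∑ i ∈ s, lam i * (|a i| * |b i|) ≤ √A * √B := by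
  have h1 : ∑ i ∈ s, lam i * (|a i| * |b i|)
      = ∑ i ∈ s, (√(lam i) * |a i|) * (√(lam i) * |b i|) := by
    apply Finset.sum_congr rfl
    intro i _
    have := Real.mul_self_sqrt (hl i)
    calc lam i * (|a i| * |b i|) = (√(lam i) * √(lam i)) * (|a i| * |b i|) := by rw [this]
      _ = _ := by ring
  rw [h1]
  refine (Real.sum_mul_le_sqrt_mul_sqrt s _ _).trans ?_
  have h2 : ∀ (x : ι → ℝ) (i : ι), (√(lam i) * |x i|) ^ 2 = lam i * (x i * x i) := by
    intro x i
    rw [mul_pow, Real.sq_sqrt (hl i), sq_abs, sq]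
  have h3 : ∑ i ∈ s, (√(lam i) * |a i|) ^ 2 ≤ A := by
    rw [Finset.sum_congr rfl fun i _ => h2 a i]
    exact sum_le_hasSum s (fun i _ => mul_nonneg (hl i) (mul_self_nonneg _)) ha
  have h4 : ∑ i ∈ s, (√(lam i) * |b i|) ^ 2 ≤ B := by
    rw [Finset.sum_congr rfl fun i _ => h2 b i]
    exact sum_le_hasSum s (fun i _ => mul_nonneg (hl i) (mul_self_nonneg _)) hb
  gcongr

/-- **Kernel identity.** If `∑ lam i f i (y)² = D y`, `∑ lam i f i (y) f i (y') = k y y'` and
`|w| √D` is integrable, then `∑ lam i (∫ w f i)² = ∫∫ w(y) w(y') k(y,y')`. -/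
theorem kernel_id {α : Type*} [MeasurableSpace α] {μ : Measure α} [SFinite μ] {ι : Type*}
    [Countable ι] {lam : ι → ℝ} (hlam : ∀ i, 0 ≤ lam i) {f : ι → α → ℝ}
    (hf : ∀ i, AEStronglyMeasurable (f i) μ) {D : α → ℝ}
    (hD : ∀ y, HasSum (fun i => lam i * (f i y * f i y)) (D y)) {k : α → α → ℝ}
    (hk : ∀ y y', HasSum (fun i => lam i * (f i y * f i y')) (k y y')) {w : α → ℝ}
    (hw : AEStronglyMeasurable w μ) (hI : Integrable (fun y => |w y| * √(D y)) μ) :
    HasSum (fun i => lam i * (∫ y, w y * f i y ∂μ) ^ 2)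
      (∫ p : α × α, w p.1 * w p.2 * k p.1 p.2 ∂(μ.prod μ)) := by
  -- single functions
  have hone : ∀ i, Integrable (fun y => √(lam i) * (w y * f i y)) μ := by
    intro i
    refine hI.mono' ((hw.mul (hf i)).const_mul _) (Eventually.of_forall fun y => ?_)
    rw [Real.norm_eq_abs, abs_mul, abs_mul, abs_of_nonneg (Real.sqrt_nonneg _)]
    have h1 : lam i * (f i y * f i y) ≤ D y :=
      le_hasSum (hD y) i (fun j _ => mul_nonneg (hlam j) (mul_self_nonneg _))
    have h2 : √(lam i) * |f i y| ≤ √(D y) := by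
      apply Real.le_sqrt_of_sq_le
      rw [mul_pow, Real.sq_sqrt (hlam i), sq_abs, sq]
      exact h1
    calc √(lam i) * (|w y| * |f i y|) = |w y| * (√(lam i) * |f i y|) := by ring
      _ ≤ |w y| * √(D y) := by gcongr
  set F : ι → α × α → ℝ := fun i p => lam i * ((w p.1 * f i p.1) * (w p.2 * f i p.2)) with hF
  have hFe : ∀ i p, F i p = (√(lam i) * (w p.1 * f i p.1)) * (√(lam i) * (w p.2 * f i p.2)) := by
    intro i p
    have := Real.mul_self_sqrt (hlam i)
    simp only [hF]
    calc lam i * ((w p.1 * f i p.1) * (w p.2 * f i p.2))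
        = (√(lam i) * √(lam i)) * ((w p.1 * f i p.1) * (w p.2 * f i p.2)) := by rw [this]
      _ = _ := by ring
  have hFint : ∀ i, Integrable (F i) (μ.prod μ) := by
    intro i
    have := (hone i).mul_prod (hone i)
    exact this.congr (Eventually.of_forall fun p => (hFe i p).symm)
  have hD2 : Integrable (fun p : α × α => (|w p.1| * √(D p.1)) * (|w p.2| * √(D p.2)))
      (μ.prod μ) := hI.mul_prod hI
  have hsum : Summable fun i => ∫ p, ‖F i p‖ ∂(μ.prod μ) := by
    refine summable_of_sum_le (c := ∫ p : α × α, (|w p.1| * √(D p.1)) * (|w p.2| * √(D p.2))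
      ∂(μ.prod μ)) (fun i => integral_nonneg fun p => norm_nonneg _) fun s => ?_
    rw [← integral_finsetSum s fun i _ => (hFint i).norm]
    refine integral_mono (integrable_finsetSum s fun i _ => (hFint i).norm) hD2 fun p => ?_
    have h1 := sum_abs_le hlam (hD p.1) (hD p.2) s
    calc ∑ i ∈ s, ‖F i p‖ = |w p.1| * |w p.2| * ∑ i ∈ s, lam i * (|f i p.1| * |f i p.2|) := by
          rw [Finset.mul_sum]
          apply Finset.sum_congr rfl
          intro i _
          simp only [hF]
          rw [Real.norm_eq_abs, abs_mul, abs_of_nonneg (hlam i), abs_mul, abs_mul, abs_mul]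
          ring
      _ ≤ |w p.1| * |w p.2| * (√(D p.1) * √(D p.2)) := by gcongr
      _ = _ := by ring
  have main := hasSum_integral_of_summable_integral_norm hFint hsum
  have e1 : ∀ i, ∫ p, F i p ∂(μ.prod μ) = lam i * (∫ y, w y * f i y ∂μ) ^ 2 := by
    intro i
    simp only [hF]
    rw [integral_const_mul, integral_prod_mul (fun y => w y * f i y) (fun y => w y * f i y), sq]
  have e2 : ∀ p : α × α, ∑' i, F i p = w p.1 * w p.2 * k p.1 p.2 := by
    intro p
    rw [← (hk p.1 p.2).tsum_eq, ← tsum_mul_left]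
    apply tsum_congr
    intro i
    simp only [hF]
    ring
  simp only [e1, e2] at main
  exact main

end Pool.Agent.W64.GP
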