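import Pool.Agent.W259.GP.Defs
import Pool.Agent.W64.GP.Kernel

/-!
# The kernel identity for the slices of a pair of mode systems
-/

set_option autoImplicit false

open MeasureTheory Finset Filter
open scoped Topology

namespace Pool.Agent.W64.GP

open Pool.Agent.W259.GP

theorem rr_pos {c : ℝ} (hc : 0 < c) : 0 < rr c := by
  have h1 : 1 < √(1 + 2 * c) := by
    rw [Real.lt_sqrt (by norm_num)]
    linarith
  unfold rr
  apply div_pos <;> linarith

theorem rr_lt_one {c : ℝ} (hc : 0 < c) : rr c < 1 := by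
  have h1 : 1 < √(1 + 2 * c) := by
    rw [Real.lt_sqrt (by norm_num)]
    linarith
  unfold rr
  rw [div_lt_one (by linarith)]
  linarith

theorem Lam_pos {m : ℕ} {c : Fin m → ℝ} (hc : ∀ j, 0 < c j) (κ : Fin m → ℕ) : 0 < Lam c κ := by
  unfold Lam
  exact Finset.prod_pos fun j _ => mul_pos (by linarith [rr_lt_one (hc j)])
    (pow_pos (rr_pos (hc j)) _)

theorem KN_diag {m : ℕ} (Q : Fin m → Fin m → ℝ) (y : Fin m → ℝ) :
    KN Q y y = (√Real.pi)⁻¹ ^ m * Real.exp (-(∑ i, y i ^ 2)) := by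
  unfold KN
  congr 1
  congr 1
  simp only [sub_self, zero_mul, Finset.sum_const_zero, zero_div, sub_zero, mul_zero]
  rw [Finset.sum_add_distrib]
  ring

theorem KN_cons {n : ℕ} {Q : Fin (n + 1) → Fin (n + 1) → ℝ} {Q' : Fin n → Fin n → ℝ}
    (hQ : ∀ i l : Fin n, Q i.succ l.succ = Q' i l) (x : ℝ) (y y' : Fin n → ℝ) :
    KN Q (Fin.cons x y) (Fin.cons x y') = pp x * KN Q' y y' := by
  unfold KN pp
  have h1 : (∑ i : Fin (n + 1), ((Fin.cons x y : Fin (n + 1) → ℝ) i ^ 2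
      + (Fin.cons x y' : Fin (n + 1) → ℝ) i ^ 2))
      = 2 * x ^ 2 + ∑ i : Fin n, (y i ^ 2 + y' i ^ 2) := by
    rw [Fin.sum_univ_succ]
    simp only [Fin.cons_zero, Fin.cons_succ]
    ring
  have h2 : (∑ i : Fin (n + 1), ∑ j : Fin (n + 1),
      ((Fin.cons x y : Fin (n + 1) → ℝ) i - (Fin.cons x y' : Fin (n + 1) → ℝ) i) * Q i j
        * ((Fin.cons x y : Fin (n + 1) → ℝ) j - (Fin.cons x y' : Fin (n + 1) → ℝ) j))
      = ∑ i : Fin n, ∑ j : Fin n, (y i - y' i) * Q' i j * (y j - y' j) := by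
    rw [Fin.sum_univ_succ]
    simp only [Fin.cons_zero, sub_self, zero_mul, Finset.sum_const_zero, zero_add]
    apply Finset.sum_congr rfl
    intro i _
    rw [Fin.sum_univ_succ]
    simp only [Fin.cons_zero, Fin.cons_succ, sub_self, mul_zero, zero_add, hQ]
  rw [h1, h2]
  have h3 : -(2 * x ^ 2 + ∑ i : Fin n, (y i ^ 2 + y' i ^ 2)) / 2
      - (∑ i : Fin n, ∑ j : Fin n, (y i - y' i) * Q' i j * (y j - y' j)) / 2
      = -x ^ 2 + (-(∑ i : Fin n, (y i ^ 2 + y' i ^ 2)) / 2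
        - (∑ i : Fin n, ∑ j : Fin n, (y i - y' i) * Q' i j * (y j - y' j)) / 2) := by ring
  rw [h3, Real.exp_add, pow_succ]
  ring

theorem cons_cont {n : ℕ} (x : ℝ) :
    Continuous (fun y : Fin n → ℝ => (Fin.cons x y : Fin (n + 1) → ℝ)) := by
  refine continuous_pi fun i => ?_
  refine Fin.cases ?_ (fun j => ?_) i
  · simpa using continuous_const
  · simpa using continuous_apply j

/-- **kernel identity for a pair**, for every `w` with `|w| e^{-|y|²/2}` integrable -/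
theorem pair_id {n : ℕ} {O : Fin (n + 1) → Fin (n + 1) → ℝ} {c : Fin (n + 1) → ℝ}
    {χ : (Fin (n + 1) → ℕ) → (Fin (n + 1) → ℝ) → ℝ} {O' : Fin n → Fin n → ℝ} {c' : Fin n → ℝ}
    {χ' : (Fin n → ℕ) → (Fin n → ℝ) → ℝ} (P : Pair O c χ O' c' χ') (x : ℝ)
    {w : (Fin n → ℝ) → ℝ} (hw : AEStronglyMeasurable w volume)
    (hI : Integrable (fun y => |w y| * Real.exp (-(∑ i, y i ^ 2) / 2))) :
    ∃ I : ℝ, HasSum (fun κ => Lam c κ * (∫ y, w y * χ κ (Fin.cons x y)) ^ 2) (pp x * I) ∧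
      HasSum (fun κ' => Lam c' κ' * (∫ y, w y * χ' κ' y) ^ 2) I := by
  have hD' : ∀ y : Fin n → ℝ, √(KN (QM O' c') y y)
      = √((√Real.pi)⁻¹ ^ n) * Real.exp (-(∑ i, y i ^ 2) / 2) := by
    intro y
    rw [KN_diag, Real.sqrt_mul (by positivity)]
    congr 1
    rw [Real.sqrt_eq_iff_mul_self_eq (by positivity) (by positivity), ← Real.exp_add]
    congr 1
    ring
  have hD : ∀ y : Fin n → ℝ, √(KN (QM O c) (Fin.cons x y) (Fin.cons x y))
      = √(pp x) * √(KN (QM O' c') y y) := by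
    intro y
    rw [KN_cons P.eq, Real.sqrt_mul]
    unfold pp
    positivity
  have hI' : Integrable (fun y => |w y| * √(KN (QM O' c') y y)) := by
    refine (hI.const_mul (√((√Real.pi)⁻¹ ^ n))).congr (Eventually.of_forall fun y => ?_)
    simp only [hD']
    ring
  have hI1 : Integrable (fun y : Fin n → ℝ =>
      |w y| * √(KN (QM O c) (Fin.cons x y) (Fin.cons x y))) := by
    refine (hI'.const_mul (√(pp x))).congr (Eventually.of_forall fun y => ?_)
    simp only [hD]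
    ring
  have k1 := kernel_id (μ := (volume : Measure (Fin n → ℝ))) (fun κ => (Lam_pos P.pos κ).le)
    (f := fun κ y => χ κ (Fin.cons x y))
    (fun κ => ((P.h.cont κ).comp (cons_cont x)).aestronglyMeasurable)
    (D := fun y => KN (QM O c) (Fin.cons x y) (Fin.cons x y))
    (fun y => P.h.mehler _ _) (k := fun y y' => KN (QM O c) (Fin.cons x y) (Fin.cons x y'))
    (fun y y' => P.h.mehler _ _) hw hI1
  have k2 := kernel_id (μ := (volume : Measure (Fin n → ℝ))) (fun κ => (Lam_pos P.pos' κ).le)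
    (f := χ') (fun κ => (P.h'.cont κ).aestronglyMeasurable)
    (D := fun y => KN (QM O' c') y y)
    (fun y => P.h'.mehler _ _) (k := fun y y' => KN (QM O' c') y y')
    (fun y y' => P.h'.mehler _ _) hw hI'
  refine ⟨_, ?_, k2⟩
  have e : (∫ p : (Fin n → ℝ) × (Fin n → ℝ), w p.1 * w p.2 *
      KN (QM O c) (Fin.cons x p.1) (Fin.cons x p.2) ∂((volume : Measure (Fin n → ℝ)).prod volume))
      = pp x * ∫ p : (Fin n → ℝ) × (Fin n → ℝ), w p.1 * w p.2 * KN (QM O' c') p.1 p.2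
        ∂((volume : Measure (Fin n → ℝ)).prod volume) := by
    rw [← integral_const_mul]
    congr 1
    funext p
    rw [KN_cons P.eq]
    ring
  rw [← e]
  exact k1

end Pool.Agent.W64.GP
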